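import Pool.Agent.Helper76.CV.Goals

/-! Packet CV-TNQ: the inequality of the normal form at a point of a tunnel. -/

set_option autoImplicit false

open Filter Topology
open Pool.Agent.Helper76.CV

namespace Pool.Agent.Helper52.CV.TNQ

theorem t (hWF1 : WF1) (hXB : XB) (hLBQ : LBQ) (hUPQ : UPQ) (hLOQ : LOQ) (hGAQ : GAQ) (hBAQ : BAQ)
    (hTPQ : TPQ) : TNQ := by
  intro r D p P a v m ξ n hD hp hTP hξ hv hz hn hm
  subst hξ
  rcases lt_or_ge v (4 / 25) with hv4 | hv4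
  · -- the points with v < 4/25
    have hTQ := hTPQ r D p P a v hD hp hTP hv hv4 hz
    obtain ⟨f1, hSD⟩ := hLBQ r P p.1.2 (a p.1.1) (deriv a p.1.1) (deriv (deriv a) p.1.1) (D.C p.1.1)
      (deriv D.C p.1.1 / 2) (deriv (deriv D.C) p.1.1 / 2) v (sg v) (sg1 v) hTQ
    have hw0 := hSD.w0
    have hR0 := hSD.R0
    rw [← hn, ← hm] at hR0
    refine ⟨hw0, Real.sqrt_pos.1 hR0, ?_⟩
    intro τ η horth
    have h1 := hUPQ r P p.1.2 (a p.1.1) (deriv a p.1.1) (deriv (deriv a) p.1.1) η (D.C p.1.1)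
      (deriv D.C p.1.1 / 2) (deriv (deriv D.C) p.1.1 / 2) v (sg v) (sg1 v) τ hTQ
      (by rw [← hn, ← hm]; exact horth)
    have h2 := hLOQ r P p.1.2 (a p.1.1) (deriv a p.1.1) (deriv (deriv a) p.1.1) η (D.C p.1.1)
      (deriv D.C p.1.1 / 2) (deriv (deriv D.C) p.1.1 / 2) v (sg v) (sg1 v) τ hTQ
    rw [← hn, ← hm] at h1 h2
    have h3 := hGAQ r n η m (wr p.1.2) τ hw0
    have hw : 552 / 1000 ≤ wr p.1.2 := by
      rcases hTQ.cas with h | h
      · exact h.2.2.2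
      · exact le_trans (by norm_num) h.2.2.2.1
    have hw1 : 1 / wr p.1.2 ≤ 1000 / 552 := by
      rw [div_le_div_iff₀ hw0 (by norm_num)]
      linarith
    obtain ⟨K, hK⟩ : ∃ K, K = √(‖n‖ ^ 2 + m ^ 2) * (‖η‖ ^ 2 + (wr p.1.2 * τ) ^ 2) := ⟨_, rfl⟩
    have hK0 : 0 ≤ K := by rw [hK]; positivity
    obtain ⟨Sq, hSq⟩ : ∃ Sq, Sq = SQ P (P p.1.2 - a p.1.1) (deriv a p.1.1) (deriv (deriv a) p.1.1) v
      (sg v) (sg1 v) (deriv (deriv D.C) p.1.1 / 2) τ η := ⟨_, rfl⟩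
    rw [← hSq] at h1 h2 ⊢
    have h1' : Sq ≤ 426 / 10 * K := by rw [hK]; linarith
    have h2' : -Sq ≤ 426 / 10 * K := by rw [hK]; linarith
    have h3' : |inner ℝ n (-((4 / 5 * wr p.1.2 * τ ^ 2) • e0)) + m * (8 / 5 * τ * η 0)| ≤
        1 / wr p.1.2 * K := by rw [hK]; linarith
    have h4 : 1 / wr p.1.2 * K ≤ 1000 / 552 * K := mul_le_mul_of_nonneg_right hw1 hK0
    have h5 : |-Sq| ≤ 426 / 10 * K := by
      rw [abs_neg]
      exact abs_le.2 ⟨by linarith, h1'⟩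
    calc |-Sq + (inner ℝ n (-((4 / 5 * wr p.1.2 * τ ^ 2) • e0)) + m * (8 / 5 * τ * η 0))| ≤
          |-Sq| + |inner ℝ n (-((4 / 5 * wr p.1.2 * τ ^ 2) • e0)) + m * (8 / 5 * τ * η 0)| :=
          abs_add_le _ _
      _ ≤ 400 / 9 * K := by linarith
      _ = _ := by rw [hK]; ring
  · -- the points with v ≥ 4/25
    obtain ⟨-, -, hW, -⟩ := hWF1
    obtain ⟨hW0, hW1, -⟩ := hW (4 / 25 - v) (by linarith)
    have hlam : lam v = 0 := by
      unfold lam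
      rw [hW0, mul_zero, Real.tan_zero]
    have hsg : sg v = 0 := by
      unfold sg
      rw [hlam, zero_mul]
    have hsg1 : sg1 v = 0 := by
      unfold sg1
      rw [hsg, hlam, hW1]
      ring
    have hZ : Z (‖P p.1.2 - a p.1.1‖ ^ 2) = 0 := by
      unfold Z
      rw [← hv, hW0, mul_zero]
    have hp2 : p.2 = 0 := by
      rcases hz with h | h
      · rw [h, hZ]
      · rw [h, hZ, neg_zero]
    obtain ⟨hcos, -⟩ := hXB r D p hD hp
    have hU : U D p.1 = 0 := by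
      rw [hp2, Real.cos_zero] at hcos
      have h1 := (Real.exp_eq_one_iff _).1 hcos.symm
      linarith
    have hy : ‖p.1.2‖ ^ 2 = 1 - D.C p.1.1 := by
      unfold U at hU
      linarith
    have hn' : n = p.1.2 := by
      rw [hn, hsg, zero_div, zero_smul, sub_zero]
    have hm' : m = deriv D.C p.1.1 / 2 / wr p.1.2 := by
      rw [hm, hsg, zero_div, zero_mul, add_zero]
    have hcas : FlatOK (D.C p.1.1) (deriv D.C p.1.1 / 2) (deriv (deriv D.C) p.1.1 / 2) ∨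
        CapOK (D.C p.1.1) (deriv D.C p.1.1 / 2) (deriv (deriv D.C) p.1.1 / 2) ∨
        NeckOK (D.C p.1.1) (deriv D.C p.1.1 / 2) (deriv (deriv D.C) p.1.1 / 2) := by
      rcases hTP.cas with h | h
      · exact Or.inl h.1
      · exact Or.inr (Or.inl h.1)
    obtain ⟨hw0, hR, -⟩ := hBAQ r p.1.2 0 (D.C p.1.1) (deriv D.C p.1.1 / 2)
      (deriv (deriv D.C) p.1.1 / 2) 0 hy hcas (by simp)
    refine ⟨hw0, by rw [hn', hm']; exact hR, ?_⟩
    intro τ η horth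
    rw [hn', hm'] at horth ⊢
    obtain ⟨-, -, h1⟩ := hBAQ r p.1.2 η (D.C p.1.1) (deriv D.C p.1.1 / 2)
      (deriv (deriv D.C) p.1.1 / 2) τ hy hcas horth
    have h3 := hGAQ r p.1.2 η (deriv D.C p.1.1 / 2 / wr p.1.2) (wr p.1.2) τ hw0
    have hSQ : SQ P (P p.1.2 - a p.1.1) (deriv a p.1.1) (deriv (deriv a) p.1.1) v
        (sg v) (sg1 v) (deriv (deriv D.C) p.1.1 / 2) τ η =
        ‖η‖ ^ 2 + deriv (deriv D.C) p.1.1 / 2 * τ ^ 2 := by
      unfold SQ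
      rw [hsg, hsg1]
      ring
    rw [hSQ]
    refine (abs_add_le _ _).trans ?_
    rw [abs_neg]
    exact (add_le_add (le_refl _) h3).trans h1

end Pool.Agent.Helper52.CV.TNQ
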